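import Pool.Agent.H34.ZN.Targets

/-!
Row ZRO of the board zn: the zeros near one point, from Jensen's inequality, the behaviour far to the
right and the bound in the strip.
-/

namespace Pool.Agent.H69.ZN

open MeasureTheory Pool.Agent.H27.L1.H34.GM Pool.Agent.H27.L1.H34.GZ Pool.Agent.H27.L1.H34.GU
  Pool.Agent.H27.L1.H34.GA Pool.Agent.H34.ZN

lemma nz_of_one {m N : ℕ} [NeZero N] {T : ℕ → Finset (ZM m)} {D : Set (V m)}
    (hS : SysZ m N T D) {F : Mat m → VN m N → ℂ} (hn : nU D F = 1) : NZ F := by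
  by_contra hcon
  unfold NZ at hcon
  push Not at hcon
  have h0 : nU D F = 0 := by
    unfold nU
    refine Finset.sum_eq_zero fun x _ => ?_
    rw [setIntegral_congr_fun (g := fun _ => (0 : ℝ)) hS.dom.meas, integral_zero]
    intro z hz
    have hd : (mt z).det ≠ 0 := by
      intro h
      have h1 := (hS.dom.shell z hz).1
      unfold aN at h1
      have hm : (0 : ℝ) < m := by exact_mod_cast hS.one_le
      rw [h, abs_zero, Real.zero_rpow (by positivity)] at h1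
      linarith
    change ‖F (mt z) x‖ ^ 2 = 0
    rw [hcon (mt z) x hd, norm_zero]
    norm_num
  rw [h0] at hn
  exact zero_ne_one hn

theorem pf_ZRO (hJ : T_JEN) (hF : T_FAR) (hS : Pool.Agent.H34.ZN.T_STR) : T_ZRO := by
  intro m K hm d0 hd0
  obtain ⟨σ2, hσ2, hfar⟩ := hF m hm
  obtain ⟨d, hd⟩ : ∃ d : ℝ, d = min d0 1 := ⟨_, rfl⟩
  have hdpos : 0 < d := by rw [hd]; exact lt_min hd0 one_pos
  have hd1 : d ≤ 1 := by rw [hd]; exact min_le_right _ _
  have hdd : d ≤ d0 := by rw [hd]; exact min_le_left _ _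
  obtain ⟨σ0, hσ0⟩ : ∃ σ0 : ℝ, σ0 = σ2 + 2 + 4 / d := ⟨_, rfl⟩
  have h4d : 4 ≤ 4 / d := by rw [le_div_iff₀ hdpos]; linarith
  obtain ⟨R, hR⟩ : ∃ R : ℝ, R = σ0 - 1 / 2 - d / 2 := ⟨_, rfl⟩
  obtain ⟨b, hb⟩ : ∃ b : ℝ, b = σ0 - 1 / 2 - d := ⟨_, rfl⟩
  have hb0 : 0 < b := by rw [hb, hσ0]; linarith
  have hR0 : 0 < R := by rw [hR, hσ0]; linarith
  obtain ⟨r, hr⟩ : ∃ r : ℝ, r = Real.sqrt (b ^ 2 + 1) := ⟨_, rfl⟩
  have hr0 : 0 < r := by rw [hr]; exact Real.sqrt_pos.mpr (by positivity)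
  have hrR : r < R := by
    rw [hr]
    refine (Real.sqrt_lt' hR0).mpr ?_
    have h1 : R = b + d / 2 := by rw [hR, hb]; ring
    have h2 : d * b = d * (σ2 + 3 / 2 - d) + 4 := by
      rw [hb, hσ0]
      field_simp
      ring
    have h3 : 0 ≤ d * (σ2 + 3 / 2 - d) := mul_nonneg hdpos.le (by linarith)
    rw [h1]
    nlinarith [sq_nonneg (d / 2)]
  have hlog : 0 < Real.log (R / r) := Real.log_pos ((one_lt_div hr0).mpr hrR)
  obtain ⟨C, hC, hstr⟩ := hS m K hm (d / 2) σ2 R (by positivity) (by linarith) hσ2 hR0.le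
  have hlC : 0 < Real.log (2 * (C + 2)) := Real.log_pos (by linarith)
  refine ⟨(Real.log (2 * (C + 2)) + 1) / Real.log (R / r), by positivity, ?_⟩
  intro N _ T D hSys F lam P hcus hn hlip hP L hL t A ht hA hline Z hZ
  have hnz : NZ F := nz_of_one hSys hn
  have hfar' := hfar N T D hSys F lam hcus hnz L hL
  have hup : ∀ s : ℂ, σ2 ≤ s.re → ‖L s‖ ≤ 2 := by
    intro s hs
    have h1 := hfar' s hs
    have h2 : ‖L s‖ ≤ ‖L s - 1‖ + ‖(1 : ℂ)‖ := by
      have := norm_add_le (L s - 1) 1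
      rwa [sub_add_cancel] at this
    rw [norm_one] at h2
    linarith
  have hlow : ∀ s : ℂ, σ2 ≤ s.re → 1 / 2 ≤ ‖L s‖ := by
    intro s hs
    have h1 := hfar' s hs
    have h2 : ‖(1 : ℂ)‖ ≤ ‖L s - 1‖ + ‖L s‖ := by
      have h3 := norm_sub_le (L s) (L s - 1)
      rw [sub_sub_cancel] at h3
      linarith
    rw [norm_one] at h2
    linarith
  obtain ⟨s0, hs0⟩ : ∃ s0 : ℂ, s0 = (σ0 : ℂ) + t * Complex.I := ⟨_, rfl⟩
  have hs0re : s0.re = σ0 := by rw [hs0]; simp
  have hs0im : s0.im = t := by rw [hs0]; simp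
  have hA0 : 0 < A := by linarith
  -- the bound on the disc
  have hM : ∀ s, ‖s - s0‖ ≤ R → ‖L s‖ ≤ (C + 2) * A := by
    intro s hs
    have h1 := Complex.abs_re_le_norm (s - s0)
    have h2 := Complex.abs_im_le_norm (s - s0)
    rw [Complex.sub_re, hs0re] at h1
    rw [Complex.sub_im, hs0im] at h2
    have h3 : |s.im - t| ≤ R := h2.trans hs
    have h4 : 1 / 2 + d / 2 ≤ s.re := by
      have := (abs_le.mp (h1.trans hs)).1
      rw [hR] at this
      linarith
    rcases le_total σ2 s.re with h5 | h5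
    · have h6 := hup s h5
      have h7 : 2 ≤ (C + 2) * A := by nlinarith
      exact h6.trans h7
    · have h6 := hstr N T D hSys F lam P hcus hn hlip hP L hL hup t A ht hA hline s h4 h5 h3
      have h7 : C * A ≤ (C + 2) * A := by nlinarith
      exact h6.trans h7
  -- only the zeros count
  have hsum : ∑ ρ ∈ Z, (analyticOrderNatAt L ρ : ℝ) =
      ∑ ρ ∈ Z.filter (fun ρ => L ρ = 0), (analyticOrderNatAt L ρ : ℝ) := by
    symm
    refine Finset.sum_filter_of_ne fun ρ _ hne => ?_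
    by_contra h0
    apply hne
    have h1 : analyticOrderAt L ρ = 0 := by
      refine AnalyticAt.analyticOrderAt_eq_zero ?_ |>.mpr h0
      exact hL.1.analyticAt ρ
    unfold analyticOrderNatAt
    rw [h1]
    simp
  have hdist : ∀ ρ ∈ Z.filter (fun ρ => L ρ = 0), ‖ρ - s0‖ ≤ r := by
    intro ρ hρ
    rw [Finset.mem_filter] at hρ
    obtain ⟨h1, h2⟩ := hZ ρ hρ.1
    have h3 : ρ.re < σ2 := by
      by_contra hcon
      have h4 := hlow ρ (not_lt.mp hcon)
      rw [hρ.2, norm_zero] at h4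
      linarith
    have h5 : ‖ρ - s0‖ ^ 2 ≤ b ^ 2 + 1 := by
      rw [← Complex.normSq_eq_norm_sq, Complex.normSq_apply, Complex.sub_re, Complex.sub_im,
        hs0re, hs0im]
      have h6 : 0 ≤ σ0 - ρ.re := by rw [hσ0]; linarith
      have h7 : σ0 - ρ.re ≤ b := by rw [hb]; linarith
      have h8 : (ρ.im - t) * (ρ.im - t) ≤ 1 := by
        have := abs_le.mp h2
        nlinarith
      nlinarith
    rw [hr]
    exact Real.le_sqrt_of_sq_le h5
  have hjen := hJ L s0 R r ((C + 2) * A) hL.1 hr0 hrR hM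
    (hlow s0 (by rw [hs0re, hσ0]; linarith)) (Z.filter (fun ρ => L ρ = 0)) hdist
  rw [hsum, div_mul_eq_mul_div, le_div_iff₀ hlog]
  refine hjen.trans ?_
  have h9 : Real.log (2 * ((C + 2) * A)) = Real.log (2 * (C + 2)) + Real.log A := by
    rw [← mul_assoc, Real.log_mul (by positivity) hA0.ne']
  rw [h9]
  have h10 : 0 ≤ Real.log A := Real.log_nonneg hA
  nlinarith

end Pool.Agent.H69.ZN
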